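import Mathlib

/-!
# Strong d-spaces: definitions
-/

set_option autoImplicit false

open Set Topology

namespace Pool.Agent.Helper359_SD

universe u v

/-- The specialization order: `x ≤ y` iff `x` lies in the closure of `{y}`. -/
def Sp {X : Type u} [TopologicalSpace X] (x y : X) : Prop := x ∈ closure {y}

/-- The principal up-set `{y | x ≤ y}` of a point for the specialization order. -/
def up {X : Type u} [TopologicalSpace X] (x : X) : Set X := {y | Sp x y}

/-- `D` is a nonempty directed set for the specialization order. -/
def Dir {X : Type u} [TopologicalSpace X] (D : Set X) : Prop :=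
  D.Nonempty ∧ ∀ x ∈ D, ∀ y ∈ D, ∃ z ∈ D, Sp x z ∧ Sp y z

/-- Strong d-spaces: `T₀` spaces such that for every directed set `D`, every point `x` and every
open set `U`, if the intersection of the up-sets of all `d ∈ D` and of `x` lies in `U`, then
`up d ∩ up x ⊆ U` for some `d ∈ D`. -/
def StrongD (X : Type u) [TopologicalSpace X] : Prop :=
  T0Space X ∧ ∀ D : Set X, Dir D → ∀ (x : X) (U : Set X), IsOpen U →
    (⋂ d ∈ D, up d) ∩ up x ⊆ U → ∃ d ∈ D, up d ∩ up x ⊆ U

end Pool.Agent.Helper359_SD
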