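import Mathlib

/-!
# Two disjoint dense families of nonprincipal ultrafilters on `ℕ`
-/

set_option autoImplicit false

open Set Cardinal Filter

namespace Pool.Agent.Helper359_SD

/-- injective choice from large sets -/
theorem exists_inj_choice {T X : Type} (A : T → Set X) (hA : ∀ t, #T ≤ #(A t)) :
    ∃ φ : T → X, Function.Injective φ ∧ ∀ t, φ t ∈ A t := by
  classical
  obtain ⟨_, _, ho⟩ := exists_ord_eq_type_lt T
  have key : ∀ (t : T) (prev : ∀ s, s < t → X), ∃ x ∈ A t, ∀ s (h : s < t), prev s h ≠ x := by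
    intro t prev
    by_contra hcon
    push Not at hcon
    have h1 : A t ⊆ Set.range (fun s : Set.Iio t => prev s.1 s.2) := by
      intro x hx
      obtain ⟨s, hs, h⟩ := hcon x hx
      exact ⟨⟨s, hs⟩, h⟩
    have h2 := (mk_le_mk_of_subset h1).trans mk_range_le
    exact absurd ((hA t).trans h2) (not_le.mpr (mk_Iio_lt t ho))
  choose g hg1 hg2 using key
  let φ : T → X := (wellFounded_lt (α := T)).fix g
  have hφ : ∀ t, φ t = g t (fun s _ => φ s) := fun t => WellFounded.fix_eq _ _ _
  refine ⟨φ, ?_, ?_⟩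
  · intro a b hab
    by_contra hne
    rcases lt_or_gt_of_ne hne with h | h
    · have := hg2 b (fun s _ => φ s) a h
      rw [← hφ b] at this
      exact this hab
    · have := hg2 a (fun s _ => φ s) b h
      rw [← hφ a] at this
      exact this hab.symm
  · intro t
    rw [hφ t]
    exact hg1 t _

/-- an almost disjoint family of size continuum inside an infinite set -/
theorem exists_almost_disjoint (C : Set ℕ) (hC : C.Infinite) :
    ∃ A : (ℕ → Bool) → Set ℕ, (∀ f, A f ⊆ C ∧ (A f).Infinite) ∧
      ∀ f g, f ≠ g → (A f ∩ A g).Finite := by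
  classical
  -- `φ` enumerates finite Boolean sequences injectively by elements of `C`
  obtain ⟨φ, hφ⟩ : ∃ φ : List Bool → ℕ, Function.Injective φ ∧ ∀ l, φ l ∈ C := by
    have : Infinite C := hC.to_subtype
    obtain ⟨e⟩ := nonempty_embedding_nat (List Bool)
    let h := Infinite.natEmbedding C
    exact ⟨fun l => (h (e l) : ℕ), fun a b hab => e.injective (h.injective (Subtype.ext hab)),
      fun l => (h (e l)).2⟩
  let pre : (ℕ → Bool) → ℕ → List Bool := fun f n => (List.range n).map f
  have hlen : ∀ f n, (pre f n).length = n := by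
    intro f n
    simp [pre]
  refine ⟨fun f => range fun n => φ (pre f n), fun f => ⟨?_, ?_⟩, ?_⟩
  · rintro _ ⟨n, rfl⟩
    exact hφ.2 _
  · refine infinite_range_of_injective fun n m hnm => ?_
    have h := congrArg List.length (hφ.1 hnm)
    rwa [hlen, hlen] at h
  · intro f g hfg
    obtain ⟨k, hk⟩ := Function.ne_iff.1 hfg
    refine ((finite_Iic k).image fun n => φ (pre f n)).subset ?_
    rintro _ ⟨⟨n, rfl⟩, ⟨m, hm⟩⟩
    refine ⟨n, ?_, rfl⟩
    have h : pre g m = pre f n := hφ.1 hm
    have hnm : m = n := by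
      have := congrArg List.length h
      rwa [hlen, hlen] at this
    subst hnm
    by_contra hlt
    have hkm : k < m := not_le.1 hlt
    apply hk
    have h2 : ∀ a ∈ List.range m, g a = f a := List.map_inj_left.1 h
    exact (h2 k (List.mem_range.2 hkm)).symm

/-- the nonprincipal ultrafilters which contain an infinite set are at least continuum many -/
theorem card_ultra (C : Set ℕ) (hC : C.Infinite) :
    𝔠 ≤ #{p : Ultrafilter ℕ | (p : Filter ℕ) ≤ cofinite ∧ C ∈ p} := by
  obtain ⟨A, hA, hAd⟩ := exists_almost_disjoint C hC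
  have h : ∀ f, ∃ p : Ultrafilter ℕ, (p : Filter ℕ) ≤ cofinite ∧ A f ∈ p := by
    intro f
    have hne : NeBot (cofinite ⊓ 𝓟 (A f)) := by
      rw [← frequently_mem_iff_neBot, frequently_cofinite_iff_infinite]
      exact (hA f).2
    refine ⟨Ultrafilter.of (cofinite ⊓ 𝓟 (A f)), (Ultrafilter.of_le _).trans inf_le_left, ?_⟩
    exact ((Ultrafilter.of_le _).trans inf_le_right) (mem_principal_self _)
  choose p hp using h
  have hinj : Function.Injective fun f => (⟨p f, (hp f).1, mem_of_superset (hp f).2 (hA f).1⟩ :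
      {p : Ultrafilter ℕ | (p : Filter ℕ) ≤ cofinite ∧ C ∈ p}) := by
    intro f g hfg
    by_contra hne
    have h1 : p f = p g := congrArg Subtype.val hfg
    have h2 : A f ∩ A g ∈ p f := inter_mem (hp f).2 (h1 ▸ (hp g).2)
    have h3 : (A f ∩ A g)ᶜ ∈ p f := (hp f).1 (hAd f g hne).compl_mem_cofinite
    have h4 := inter_mem h2 h3
    rw [inter_compl_self] at h4
    exact (p f).neBot.ne (empty_mem_iff_bot.1 h4)
  have h5 := mk_le_of_injective hinj
  have h6 : #(ℕ → Bool) = 𝔠 := by simp
  rwa [h6] at h5

/-- Two families `F false`, `F true` of nonprincipal ultrafilters: every infinite set belongs to a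
member of each family, and no member of the first family belongs to the second one. -/
theorem exists_families : ∃ F : Bool → {C : Set ℕ // C.Infinite} → Ultrafilter ℕ,
    (∀ b i, (F b i : Filter ℕ) ≤ cofinite) ∧ (∀ b i, (i : Set ℕ) ∈ F b i) ∧
      ∀ i j, F false i ≠ F true j := by
  have hcard : #({C : Set ℕ // C.Infinite} × Bool) ≤ 𝔠 := by
    have h1 : #{C : Set ℕ // C.Infinite} ≤ 𝔠 := by
      refine (mk_subtype_le _).trans ?_
      simp
    calc #({C : Set ℕ // C.Infinite} × Bool) = #{C : Set ℕ // C.Infinite} * #Bool := by simp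
      _ ≤ 𝔠 * 𝔠 := mul_le_mul' h1 (by simpa using (nat_lt_continuum 2).le)
      _ = 𝔠 := continuum_mul_self
  obtain ⟨φ, hφ, hmem⟩ := exists_inj_choice
    (fun t : {C : Set ℕ // C.Infinite} × Bool =>
      {p : Ultrafilter ℕ | (p : Filter ℕ) ≤ cofinite ∧ (t.1 : Set ℕ) ∈ p})
    (fun t => hcard.trans (card_ultra t.1 t.1.2))
  refine ⟨fun b i => φ (i, b), fun b i => (hmem (i, b)).1, fun b i => (hmem (i, b)).2,
    fun i j h => ?_⟩
  have := congrArg Prod.snd (hφ h)
  exact Bool.false_ne_true this

end Pool.Agent.Helper359_SD
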