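import Pool.Agent.Helper359_SD.Defs
import Pool.Agent.Helper359_SD.Ultra

/-!
# A strong d-space whose square is not a strong d-space
-/

set_option autoImplicit false

open Set Filter Topology

namespace Pool.Agent.Helper359_SD

universe u v

theorem sp_iff {X : Type u} [TopologicalSpace X] {x y : X} :
    Sp x y ↔ ∀ U : Set X, IsOpen U → x ∈ U → y ∈ U := by
  rw [Sp, ← specializes_iff_mem_closure, specializes_iff_forall_open]

theorem sp_refl {X : Type u} [TopologicalSpace X] (x : X) : Sp x x := subset_closure rfl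

theorem sp_pi {I : Type v} {R : I → Type u} [∀ i, TopologicalSpace (R i)] {x y : ∀ i, R i} :
    Sp x y ↔ ∀ i, Sp (x i) (y i) := by
  simp only [Sp, ← specializes_iff_mem_closure, specializes_pi]

theorem sp_subtype {X : Type u} [TopologicalSpace X] {p : X → Prop} {x y : Subtype p} :
    Sp x y ↔ Sp (x : X) (y : X) := by
  simp only [Sp, ← specializes_iff_mem_closure]
  exact subtype_specializes_iff _ _

/-- The points: a chain `d 0 < d 1 < ...` with supremum `s`, two further minimal points
`x false`, `x true`, and maximal points `e n` and `k b i`. -/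
inductive Pt (K : Type) : Type
  | d (n : ℕ)
  | s
  | x (b : Bool)
  | e (n : ℕ)
  | k (b : Bool) (i : K)

namespace Pt

variable {K : Type}

/-- the order: `d m ≤ d n` and `d m ≤ e n` for `m ≤ n`, `d m ≤ s ≤ k b i`, `x b ≤ e n`,
`x b ≤ k b i` -/
def le : Pt K → Pt K → Prop
  | d m, d n => m ≤ n
  | d _, s => True
  | d m, e n => m ≤ n
  | d _, k _ _ => True
  | s, s => True
  | s, k _ _ => True
  | x b, x c => b = c
  | x _, e _ => True
  | x b, k c _ => b = c
  | e m, e n => m = n
  | k b i, k c j => b = c ∧ i = j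
  | _, _ => False

theorem le_refl (a : Pt K) : le a a := by
  cases a <;> simp [le]

theorem le_trans (a b c : Pt K) (h : le a b) (h' : le b c) : le a c := by
  cases a <;> cases b <;> cases c <;> simp_all [le] <;> omega

theorem le_antisymm (a b : Pt K) (h : le a b) (h' : le b a) : a = b := by
  cases a <;> cases b <;> simp_all [le] <;> omega

variable (F : Bool → K → Ultrafilter ℕ)

/-- the open sets: upper sets `W` such that `s ∈ W` implies `d n ∈ W` for some `n`, and
`k b i ∈ W` implies `{n | e n ∈ W} ∈ F b i` -/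
@[instance_reducible]
def top : TopologicalSpace (Pt K) where
  IsOpen W := (∀ a b, le a b → a ∈ W → b ∈ W) ∧ (s ∈ W → ∃ n, d n ∈ W) ∧
    ∀ b i, k b i ∈ W → {n | e n ∈ W} ∈ F b i
  isOpen_univ := ⟨fun _ _ _ _ => trivial, fun _ => ⟨0, trivial⟩, fun _ _ _ => univ_mem⟩
  isOpen_inter := by
    rintro U V ⟨hU1, hU2, hU3⟩ ⟨hV1, hV2, hV3⟩
    refine ⟨fun a b hab ha => ⟨hU1 a b hab ha.1, hV1 a b hab ha.2⟩, fun hs => ?_,
      fun b i hk => ?_⟩
    · obtain ⟨m, hm⟩ := hU2 hs.1
      obtain ⟨n, hn⟩ := hV2 hs.2
      exact ⟨max m n, hU1 (d m) _ (le_max_left m n) hm, hV1 (d n) _ (le_max_right m n) hn⟩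
    · exact inter_mem (hU3 b i hk.1) (hV3 b i hk.2)
  isOpen_sUnion := by
    intro S hS
    refine ⟨fun a b hab ⟨U, hU, ha⟩ => ⟨U, hU, (hS U hU).1 a b hab ha⟩, ?_, ?_⟩
    · rintro ⟨U, hU, hs⟩
      obtain ⟨n, hn⟩ := (hS U hU).2.1 hs
      exact ⟨n, U, hU, hn⟩
    · rintro b i ⟨U, hU, hk⟩
      exact mem_of_superset ((hS U hU).2.2 b i hk) fun n hn => ⟨U, hU, hn⟩

/-- the specialization order of this topology is `le` -/
theorem sp_iff_le (hF : ∀ b i, (F b i : Filter ℕ) ≤ cofinite) (a b : Pt K) :
    @Sp (Pt K) (top F) a b ↔ le a b := by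
  let _ := top F
  rw [sp_iff]
  constructor
  · intro h
    by_contra hab
    have hop : IsOpen {z : Pt K | ¬ le z b} := by
      refine ⟨fun z w hzw hz hw => hz (le_trans z w b hzw hw), fun hs => ?_, fun c i hk => ?_⟩
      · cases b with
        | d m => exact ⟨m + 1, by simp [le]⟩
        | s => exact absurd (le_refl (s : Pt K)) hs
        | x c => exact ⟨0, by simp [le]⟩
        | e m => exact ⟨m + 1, by simp [le]⟩
        | k c j => exact absurd trivial hs
      · cases b with
        | e m =>
          have h1 : ({m}ᶜ : Set ℕ) ∈ F c i := hF c i (finite_singleton m).compl_mem_cofinite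
          exact mem_of_superset h1 fun n hn => hn
        | d m => exact mem_of_superset univ_mem fun n _ => by simp [le]
        | s => exact mem_of_superset univ_mem fun n _ => by simp [le]
        | x c => exact mem_of_superset univ_mem fun n _ => by simp [le]
        | k c j => exact mem_of_superset univ_mem fun n _ => by simp [le]
    exact h _ hop hab (le_refl b)
  · intro h U hU ha
    exact hU.1 a b h ha

theorem t0 (hF : ∀ b i, (F b i : Filter ℕ) ≤ cofinite) : @T0Space (Pt K) (top F) := by
  let _ := top F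
  refine ⟨fun a b hab => le_antisymm a b ?_ ?_⟩
  · rw [← sp_iff_le F hF, sp_iff]
    exact fun U hU ha => (hab.mem_open_iff hU).1 ha
  · rw [← sp_iff_le F hF, sp_iff]
    exact fun U hU hb => (hab.mem_open_iff hU).2 hb

/-- a directed set without a largest element consists of cofinally many of the points `d n` -/
theorem dir_cases {D : Set (Pt K)} (hne : D.Nonempty)
    (hD : ∀ a ∈ D, ∀ b ∈ D, ∃ c ∈ D, le a c ∧ le b c) :
    (∃ m ∈ D, ∀ a ∈ D, le a m) ∨ ((∀ a ∈ D, ∃ n, a = d n) ∧ ∀ n, ∃ m, n ≤ m ∧ d m ∈ D) := by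
  by_cases h1 : ∃ m ∈ D, ∀ c, le m c → c = m
  · left
    obtain ⟨m, hm, hmax⟩ := h1
    refine ⟨m, hm, fun a ha => ?_⟩
    obtain ⟨c, -, hac, hmc⟩ := hD a ha m hm
    rwa [hmax c hmc] at hac
  · push Not at h1
    have he : ∀ n, e n ∉ D := by
      intro n hn
      obtain ⟨c, hc, hne⟩ := h1 _ hn
      cases c <;> simp_all [le]
    have hk : ∀ b i, k b i ∉ D := by
      intro b i hn
      obtain ⟨c, hc, hne⟩ := h1 _ hn
      cases c <;> simp_all [le]
    by_cases h2 : ∀ a ∈ D, ∃ n, a = d n
    · by_cases h3 : ∀ n, ∃ m, n ≤ m ∧ d m ∈ D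
      · exact Or.inr ⟨h2, h3⟩
      · left
        push Not at h3
        obtain ⟨N, hN⟩ := h3
        -- a bounded nonempty set of numbers has a maximum
        have hfin : {n | (d n : Pt K) ∈ D}.Finite := by
          refine (finite_Iio N).subset fun n hn => ?_
          by_contra hlt
          exact hN n (not_lt.1 hlt) hn
        obtain ⟨a, ha⟩ := hne
        obtain ⟨n0, rfl⟩ := h2 a ha
        obtain ⟨m, hm, hmax⟩ := hfin.exists_maximal ⟨n0, ha⟩
        refine ⟨d m, hm, fun a ha => ?_⟩
        obtain ⟨n, rfl⟩ := h2 a ha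
        show n ≤ m
        rcases le_total n m with h | h
        · exact h
        · exact hmax ha h
    · left
      push Not at h2
      obtain ⟨a, ha, had⟩ := h2
      refine ⟨a, ha, fun b hb => ?_⟩
      obtain ⟨c, hc, hac, hbc⟩ := hD a ha b hb
      have hca : c = a := by
        cases a with
        | d n => exact absurd rfl (had n)
        | s =>
          cases c with
          | s => rfl
          | k b i => exact absurd hc (hk b i)
          | d n => exact absurd hac (by simp [le])
          | x b => exact absurd hac (by simp [le])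
          | e n => exact absurd hc (he n)
        | x b =>
          cases c with
          | s => exact absurd hac (by simp [le])
          | k b i => exact absurd hc (hk b i)
          | d n => exact absurd hac (by simp [le])
          | x b' =>
            have : b = b' := hac
            rw [this]
          | e n => exact absurd hc (he n)
        | e n => exact absurd ha (he n)
        | k b i => exact absurd ha (hk b i)
      rwa [hca] at hbc

/-- `Pt K` with the topology `top F` is a strong d-space -/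
theorem strongD (hF : ∀ b i, (F b i : Filter ℕ) ≤ cofinite)
    (hd : ∀ b (C : Set ℕ), C.Infinite → ∃ i, C ∈ F b i) : @StrongD (Pt K) (top F) := by
  let _ := top F
  refine ⟨t0 F hF, fun D hD z U hU hsub => ?_⟩
  have hmem : ∀ {a c : Pt K}, c ∈ up a ↔ le a c := fun {a c} => sp_iff_le F hF a c
  have hD' : ∀ a ∈ D, ∀ b ∈ D, ∃ c ∈ D, le a c ∧ le b c := by
    intro a ha b hb
    obtain ⟨c, hc, h1, h2⟩ := hD.2 a ha b hb
    exact ⟨c, hc, (sp_iff_le F hF _ _).1 h1, (sp_iff_le F hF _ _).1 h2⟩
  rcases dir_cases hD.1 hD' with ⟨m, hm, hmax⟩ | ⟨hall, hcof⟩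
  · refine ⟨m, hm, fun c hc => hsub ⟨?_, hc.2⟩⟩
    simp only [mem_iInter]
    intro a ha
    exact hmem.2 (le_trans a m c (hmax a ha) (hmem.1 hc.1))
  · have hs : ∀ c, le s c → c ∈ ⋂ a ∈ D, up a := by
      intro c hc
      simp only [mem_iInter]
      intro a ha
      obtain ⟨n, rfl⟩ := hall a ha
      exact hmem.2 (le_trans (d n) s c trivial hc)
    have hU1 : ∀ a b, le a b → a ∈ U → b ∈ U := hU.1
    obtain ⟨m0, -, hm0⟩ := hcof 0
    cases z with
    | d m =>
      have h1 : (s : Pt K) ∈ U := hsub ⟨hs s trivial, hmem.2 trivial⟩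
      obtain ⟨n, hn⟩ := hU.2.1 h1
      obtain ⟨l, hl, hlD⟩ := hcof n
      exact ⟨d l, hlD, fun c hc => hU1 (d l) c (hmem.1 hc.1) (hU1 (d n) (d l) hl hn)⟩
    | s =>
      have h1 : (s : Pt K) ∈ U := hsub ⟨hs s trivial, hmem.2 trivial⟩
      exact ⟨d m0, hm0, fun c hc => hU1 s c (hmem.1 hc.2) h1⟩
    | x b =>
      have h1 : ∀ i, k b i ∈ U := fun i => hsub ⟨hs _ trivial, hmem.2 rfl⟩
      have h2 : {n | e n ∉ U}.Finite := by
        by_contra hinf
        obtain ⟨i, hi⟩ := hd b _ hinf
        have h3 := inter_mem hi (hU.2.2 b i (h1 i))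
        have h4 : {n | e n ∉ U} ∩ {n | e n ∈ U} = ∅ := by
          ext n
          simp
        rw [h4] at h3
        exact (F b i).neBot.ne (empty_mem_iff_bot.1 h3)
      obtain ⟨N, hN⟩ := h2.bddAbove
      obtain ⟨l, hl, hlD⟩ := hcof (N + 1)
      refine ⟨d l, hlD, fun c hc => ?_⟩
      have hc1 : le (d l) c := hmem.1 hc.1
      have hc2 : le (x b) c := hmem.1 hc.2
      cases c with
      | d n => exact absurd hc2 (by simp [le])
      | s => exact absurd hc2 (by simp [le])
      | x c => exact absurd hc1 (by simp [le])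
      | e n =>
        by_contra hn
        have h5 : n ≤ N := hN hn
        have h6 : l ≤ n := hc1
        omega
      | k c i =>
        have : b = c := hc2
        rw [← this]
        exact h1 i
    | e m =>
      obtain ⟨l, hl, hlD⟩ := hcof (m + 1)
      refine ⟨d l, hlD, fun c hc => ?_⟩
      have hc1 : le (d l) c := hmem.1 hc.1
      have hc2 : le (e m) c := hmem.1 hc.2
      cases c with
      | e n =>
        have h5 : m = n := hc2
        have h6 : l ≤ n := hc1
        omega
      | d n => exact absurd hc2 (by simp [le])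
      | s => exact absurd hc2 (by simp [le])
      | x c => exact absurd hc2 (by simp [le])
      | k c i => exact absurd hc2 (by simp [le])
    | k b i =>
      have h1 : k b i ∈ U := hsub ⟨hs _ trivial, hmem.2 ⟨rfl, rfl⟩⟩
      exact ⟨d m0, hm0, fun c hc => hU1 (k b i) c (hmem.1 hc.2) h1⟩

/-- the neighbourhood of `k b i` given by a set in `F b i` -/
def nb (b : Bool) (i : K) (A : Set ℕ) : Set (Pt K) := {c | c = k b i ∨ ∃ n ∈ A, c = e n}

theorem isOpen_nb (b : Bool) (i : K) {A : Set ℕ} (hA : A ∈ F b i) :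
    @IsOpen (Pt K) (top F) (nb b i A) := by
  refine ⟨?_, ?_, ?_⟩
  · rintro a c hac (rfl | ⟨n, hn, rfl⟩)
    · cases c with
      | k c j =>
        obtain ⟨h1, h2⟩ : b = c ∧ i = j := hac
        rw [← h1, ← h2]
        exact Or.inl rfl
      | d n => exact absurd hac (by simp [le])
      | s => exact absurd hac (by simp [le])
      | x c => exact absurd hac (by simp [le])
      | e n => exact absurd hac (by simp [le])
    · cases c with
      | e m =>
        have h1 : n = m := hac
        rw [← h1]
        exact Or.inr ⟨n, hn, rfl⟩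
      | d n => exact absurd hac (by simp [le])
      | s => exact absurd hac (by simp [le])
      | x c => exact absurd hac (by simp [le])
      | k c j => exact absurd hac (by simp [le])
  · rintro (h | ⟨n, -, h⟩)
    · exact absurd h (by simp)
    · exact absurd h (by simp)
  · rintro c j (h | ⟨n, -, h⟩)
    · obtain ⟨rfl, rfl⟩ : c = b ∧ j = i := by simpa using h
      exact mem_of_superset hA fun n hn => Or.inr ⟨n, hn, rfl⟩
    · exact absurd h (by simp)

/-- Spaces of functions to `Pt K` with the topology of pointwise convergence which contain the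
constant functions `d n` and `e n`, and a function with values in `{x false, x true}` which takes
both values, are not strong d-spaces. -/
theorem not_strongD (hF : ∀ b i, (F b i : Filter ℕ) ≤ cofinite)
    (hne : ∀ i j, F false i ≠ F true j) {Z : Type u} {I : Type v} [TopologicalSpace Z]
    (ι : Z → I → Pt K) (hι : @IsInducing Z (I → Pt K) _ (@Pi.topologicalSpace _ _ fun _ => top F) ι)
    (χ : I → Bool) (i₀ j₀ : I) (hi : χ i₀ = false) (hj : χ j₀ = true)
    (h1 : ∀ n : ℕ, ∃ z, ι z = fun _ => d n) (h2 : ∀ n : ℕ, ∃ z, ι z = fun _ => e n)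
    (h3 : ∃ z, ι z = fun i => x (χ i)) : ¬ StrongD Z := by
  let _ := top F
  intro hS
  have hmem : ∀ {a c : Z}, c ∈ up a ↔ ∀ i, le (ι a i) (ι c i) := by
    intro a c
    have h4 : Sp a c ↔ Sp (ι a) (ι c) := by
      simp only [Sp, ← specializes_iff_mem_closure]
      exact hι.specializes_iff.symm
    show Sp a c ↔ _
    rw [h4, sp_pi]
    exact forall_congr' fun i => sp_iff_le F hF _ _
  choose zd hzd using h1
  choose ze hze using h2
  obtain ⟨zx, hzx⟩ := h3
  -- separation of the ultrafilters
  have hsep : ∀ i j, ∃ A : Set ℕ, A ∈ F false i ∧ Aᶜ ∈ F true j := by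
    intro i j
    by_contra hcon
    push Not at hcon
    have h5 : (F true j : Filter ℕ) ≤ F false i := fun A hA =>
      Ultrafilter.compl_notMem_iff.1 (hcon A hA)
    exact hne i j (Ultrafilter.eq_of_le h5).symm
  choose A hA hA' using hsep
  let V : Set (I → Pt K) :=
    ⋃ p : K, ⋃ q : K, (fun g => g i₀) ⁻¹' nb false p (A p q) ∩ (fun g => g j₀) ⁻¹' nb true q (A p q)ᶜ
  have hV : IsOpen V := isOpen_iUnion fun p => isOpen_iUnion fun q =>
    ((isOpen_nb F false p (hA p q)).preimage (continuous_apply i₀)).inter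
      ((isOpen_nb F true q (hA' p q)).preimage (continuous_apply j₀))
  have hD : Dir (range zd) := by
    refine ⟨⟨zd 0, 0, rfl⟩, ?_⟩
    rintro _ ⟨m, rfl⟩ _ ⟨n, rfl⟩
    refine ⟨zd (max m n), ⟨_, rfl⟩, ?_, ?_⟩
    · refine hmem.2 fun i => ?_
      rw [hzd, hzd]
      exact le_max_left m n
    · refine hmem.2 fun i => ?_
      rw [hzd, hzd]
      exact le_max_right m n
  obtain ⟨_, ⟨n, rfl⟩, hn⟩ := hS.2 (range zd) hD zx (ι ⁻¹' V) (hV.preimage hι.continuous) (by
    rintro g ⟨hg1, hg2⟩
    have hg3 : ∀ n i, le (d n) (ι g i) := by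
      intro n i
      have h := mem_iInter.1 hg1 (zd n)
      have h' := hmem.1 (mem_iInter.1 h ⟨n, rfl⟩) i
      rwa [hzd] at h'
    have hg4 : ∀ i, le (x (χ i)) (ι g i) := by
      intro i
      have h := hmem.1 hg2 i
      rwa [hzx] at h
    have hg5 : ∀ i, ∃ p, ι g i = k (χ i) p := by
      intro i
      have h6 := hg4 i
      have h7 := fun n => hg3 n i
      generalize ι g i = c at h6 h7
      cases c with
      | d n => exact absurd h6 (by simp [le])
      | s => exact absurd h6 (by simp [le])
      | x b => exact absurd (h7 0) (by simp [le])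
      | e n => exact absurd (h7 (n + 1)) (by simp [le])
      | k b p =>
        have : χ i = b := h6
        rw [this]
        exact ⟨p, rfl⟩
    obtain ⟨p, hp⟩ := hg5 i₀
    obtain ⟨q, hq⟩ := hg5 j₀
    rw [hi] at hp
    rw [hj] at hq
    refine mem_iUnion.2 ⟨p, mem_iUnion.2 ⟨q, ?_, ?_⟩⟩
    · exact Or.inl hp
    · exact Or.inl hq)
  have hn' : ze n ∈ ι ⁻¹' V := by
    refine hn ⟨hmem.2 fun i => ?_, hmem.2 fun i => ?_⟩
    · rw [hzd, hze]
      exact _root_.le_refl n
    · rw [hzx, hze]
      trivial
  obtain ⟨p, hp⟩ := mem_iUnion.1 hn'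
  obtain ⟨q, hq1, hq2⟩ := mem_iUnion.1 hp
  have h6 : ι (ze n) i₀ ∈ nb false p (A p q) := hq1
  have h7 : ι (ze n) j₀ ∈ nb true q (A p q)ᶜ := hq2
  rw [hze] at h6 h7
  rcases h6 with h | ⟨m, hm, h⟩
  · exact absurd h (by simp)
  · rcases h7 with h' | ⟨m', hm', h'⟩
    · exact absurd h' (by simp)
    · have e1 : n = m := by simpa using h
      have e2 : n = m' := by simpa using h'
      rw [← e1] at hm
      rw [← e2] at hm'
      exact hm' hm

end Pt

end Pool.Agent.Helper359_SD
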